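import Mathlib
import Pool.Agent.V1145.PoisDet

/-!
# The modular derivation of a polynomial Poisson algebra is a log-ozone derivation

For every field `k` of characteristic `p > 0` and every Poisson bracket on `P = k[x_1, ..., x_n]`, the
modular derivation is `δ_Ω` for a single nonzero Poisson normal polynomial `Ω`; in particular it lies
in the log-ozone group.
-/

set_option autoImplicit false
set_option linter.all false

noncomputable section

namespace Pool.Agent.Results.MP_c5669f_al.LogOzone

open MvPolynomial

universe u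

/-- A polynomial Poisson algebra: a bilinear bracket on `k[x_1, ..., x_n]` which is a Lie bracket and
such that `{a, -}` is a derivation for every `a`. No grading is assumed. -/
structure PoissonPoly (k : Type u) [Field k] (n : ℕ) where
  /-- The Poisson bracket. -/
  br : MvPolynomial (Fin n) k →ₗ[k] MvPolynomial (Fin n) k →ₗ[k] MvPolynomial (Fin n) k
  self : ∀ a, br a a = 0
  jacobi : ∀ a b c, br a (br b c) + br b (br c a) + br c (br a b) = 0
  leibniz : ∀ a b c, br a (b * c) = br a b * c + b * br a c

variable {k : Type u} [Field k] {n : ℕ}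

theorem PoissonPoly.anti (B : PoissonPoly k n) (a b : MvPolynomial (Fin n) k) :
    B.br a b = - B.br b a := by
  have h := B.self (a + b)
  simp only [map_add, LinearMap.add_apply, B.self, zero_add, add_zero] at h
  exact eq_neg_of_add_eq_zero_right h

/-- A nonzero `f` is Poisson normal if `{a, f}` lies in `f P` for all `a`. -/
def PoissonPoly.IsNormal (B : PoissonPoly k n) (f : MvPolynomial (Fin n) k) : Prop :=
  f ≠ 0 ∧ ∀ a, f ∣ B.br a f

/-- `δ` is the log-ozone derivation `f⁻¹ {-, f}`. -/
def PoissonPoly.IsLogOzone (B : PoissonPoly k n) (f : MvPolynomial (Fin n) k)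
    (δ : Derivation k (MvPolynomial (Fin n) k) (MvPolynomial (Fin n) k)) : Prop :=
  ∀ a, f * δ a = B.br a f

/-- The log-ozone group: the additive group of derivations generated by the log-ozone derivations
`f⁻¹ {-, f}` of the Poisson normal elements `f`. -/
def PoissonPoly.loz (B : PoissonPoly k n) :
    AddSubgroup (Derivation k (MvPolynomial (Fin n) k) (MvPolynomial (Fin n) k)) :=
  AddSubgroup.closure {δ | ∃ f, B.IsNormal f ∧ B.IsLogOzone f δ}

/-- The Hamiltonian derivation `{a, -}`. -/
def PoissonPoly.ham (B : PoissonPoly k n) (a : MvPolynomial (Fin n) k) :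
    Derivation k (MvPolynomial (Fin n) k) (MvPolynomial (Fin n) k) :=
  Derivation.mk' (B.br a) (by
    intro b c
    rw [B.leibniz, smul_eq_mul, smul_eq_mul]
    ring)

theorem PoissonPoly.ham_apply (B : PoissonPoly k n) (a b : MvPolynomial (Fin n) k) :
    B.ham a b = B.br a b := rfl

theorem sum_smul_apply' {ι : Type*} (s : Finset ι) (c : ι → MvPolynomial (Fin n) k)
    (D : ι → Derivation k (MvPolynomial (Fin n) k) (MvPolynomial (Fin n) k))
    (x : MvPolynomial (Fin n) k) :
    (∑ i ∈ s, c i • D i) x = ∑ i ∈ s, c i * D i x := by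
  classical
  induction s using Finset.induction_on with
  | empty => simp
  | insert a s ha ih =>
    rw [Finset.sum_insert ha, Finset.sum_insert ha, Derivation.add_apply, ih]
    simp

theorem PoissonPoly.br_eq (B : PoissonPoly k n) (a f : MvPolynomial (Fin n) k) :
    B.br a f = ∑ j, B.br a (X j) * pderiv j f := by
  have h : B.ham a = ∑ j, B.br a (X j) • pderiv j := by
    apply derivation_ext
    intro i
    rw [sum_smul_apply', Finset.sum_eq_single i]
    · rw [pderiv_X_self, mul_one]; rfl
    · intro j _ hj
      rw [pderiv_X_of_ne (Ne.symm hj), mul_zero]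
    · intro hi; exact absurd (Finset.mem_univ i) hi
  have h2 := congrArg (fun D : Derivation k (MvPolynomial (Fin n) k) _ => D f) h
  simp only [sum_smul_apply'] at h2
  exact h2

/-- The modular derivation `φ(f) = ∑ⱼ ∂ⱼ {xⱼ, f}`. -/
def PoissonPoly.modular (B : PoissonPoly k n) :
    Derivation k (MvPolynomial (Fin n) k) (MvPolynomial (Fin n) k) :=
  Derivation.mk' (∑ j, (pderiv j : Derivation k (MvPolynomial (Fin n) k)
      (MvPolynomial (Fin n) k)).toLinearMap ∘ₗ (B.br (X j))) (by
    intro a b
    simp only [LinearMap.sum_apply, LinearMap.comp_apply, smul_eq_mul, Finset.mul_sum]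
    have h1 : B.br b a + B.br a b = 0 := by rw [B.anti b a]; ring
    rw [B.br_eq b a, B.br_eq a b, ← Finset.sum_add_distrib] at h1
    rw [← sub_eq_zero, ← Finset.sum_add_distrib, ← Finset.sum_sub_distrib, ← neg_eq_zero,
      ← Finset.sum_neg_distrib, ← h1]
    refine Finset.sum_congr rfl (fun j _ => ?_)
    rw [B.leibniz, B.anti b (X j), B.anti a (X j)]
    show -((pderiv j) _ - (a * (pderiv j) _ + b * (pderiv j) _)) = _
    rw [map_add, Derivation.leibniz, Derivation.leibniz]
    simp only [smul_eq_mul]
    ring)

theorem PoissonPoly.modular_apply (B : PoissonPoly k n) (f : MvPolynomial (Fin n) k) :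
    B.modular f = ∑ j, pderiv j (B.br (X j) f) := by
  show (∑ j, (pderiv j : Derivation k (MvPolynomial (Fin n) k)
      (MvPolynomial (Fin n) k)).toLinearMap ∘ₗ (B.br (X j))) f = _
  rw [LinearMap.sum_apply]
  rfl

/-! ### Derivations of the field of fractions -/

theorem exists_ext {P K : Type*} [CommRing P] [IsDomain P] [Algebra k P] [Field K] [Algebra P K]
    [IsFractionRing P K] [Algebra k K] [IsScalarTower k P K] (D : Derivation k P P) :
    ∃ E : Derivation k K K, ∀ f : P, E (algebraMap P K f) = algebraMap P K (D f) := by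
  let ι := algebraMap P K
  let Ψ : P →+* TrivSqZeroExt K K :=
    { toFun := fun f => TrivSqZeroExt.inl (ι f) + TrivSqZeroExt.inr (ι (D f))
      map_one' := by ext <;> simp
      map_mul' := by
        intro f g
        ext
        · simp
        · simp; ring
      map_zero' := by ext <;> simp
      map_add' := by intro f g; ext <;> simp }
  have hΨ : ∀ f, Ψ f = TrivSqZeroExt.inl (ι f) + TrivSqZeroExt.inr (ι (D f)) := fun f => rfl
  have hu : ∀ s : nonZeroDivisors P, IsUnit (Ψ s) := by
    intro s
    rw [TrivSqZeroExt.isUnit_iff_isUnit_fst, hΨ]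
    simp only [TrivSqZeroExt.fst_add, TrivSqZeroExt.fst_inl, TrivSqZeroExt.fst_inr, add_zero]
    exact IsLocalization.map_units K s
  let L : K →+* TrivSqZeroExt K K := IsLocalization.lift (M := nonZeroDivisors P) (S := K) hu
  have hL : ∀ f, L (ι f) = Ψ f := fun f => IsLocalization.lift_eq hu f
  have hfst : ∀ z, (L z).fst = z := by
    have : ((TrivSqZeroExt.fstHom K K K : TrivSqZeroExt K K →ₐ[K] K).toRingHom).comp L
        = RingHom.id K := by
      apply IsLocalization.ringHom_ext (nonZeroDivisors P)
      ext f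
      show (L (ι f)).fst = ι f
      rw [hL, hΨ]; simp
    intro z
    exact congrArg (fun g : K →+* K => g z) this
  have hLk : ∀ (c : k), L (algebraMap k K c) = TrivSqZeroExt.inl (algebraMap k K c) := by
    intro c
    have h1 : algebraMap k K c = ι (algebraMap k P c) := IsScalarTower.algebraMap_apply k P K c
    rw [h1, hL, hΨ, Derivation.map_algebraMap]
    simp
  refine ⟨Derivation.mk'
    { toFun := fun z => (L z).snd
      map_add' := by intro z w; rw [map_add]; rfl
      map_smul' := by
        intro c z
        rw [Algebra.smul_def, map_mul, hLk, TrivSqZeroExt.snd_mul]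
        simp [Algebra.smul_def] } ?_, ?_⟩
  · intro z w
    show (L (z * w)).snd = z • (L w).snd + w • (L z).snd
    rw [map_mul, TrivSqZeroExt.snd_mul, hfst, hfst]
    simp [mul_comm]
  · intro f
    show (L (ι f)).snd = _
    rw [hL, hΨ, TrivSqZeroExt.snd_add, TrivSqZeroExt.snd_inl, TrivSqZeroExt.snd_inr, zero_add]

theorem der_zero {P K : Type*} [CommRing P] [IsDomain P] [Algebra k P] [Field K] [Algebra P K]
    [IsFractionRing P K] [Algebra k K] [IsScalarTower k P K] (E : Derivation k K K)
    (h : ∀ f : P, E (algebraMap P K f) = 0) : E = 0 := by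
  ext z
  obtain ⟨u, s, hs, rfl⟩ := IsFractionRing.div_surjective (A := P) z
  have hs0 : algebraMap P K s ≠ 0 :=
    IsFractionRing.to_map_ne_zero_of_mem_nonZeroDivisors hs
  have h1 : E (algebraMap P K s * (algebraMap P K u / algebraMap P K s)) = 0 := by
    rw [mul_div_cancel₀ _ hs0]; exact h u
  rw [Derivation.leibniz, h s, smul_zero, add_zero, smul_eq_mul] at h1
  rcases mul_eq_zero.1 h1 with h2 | h2
  · exact absurd h2 hs0
  · exact h2

/-- The statement over an abstract field of fractions. -/
theorem main_aux (p : ℕ) [Fact p.Prime] [CharP k p] (B : PoissonPoly k n) (K : Type*) [Field K]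
    [Algebra (MvPolynomial (Fin n) k) K] [IsFractionRing (MvPolynomial (Fin n) k) K]
    [Algebra k K] [IsScalarTower k (MvPolynomial (Fin n) k) K] :
    ∃ Ω, B.IsNormal Ω ∧ B.IsLogOzone Ω B.modular := by
  have hp : p.Prime := Fact.out
  haveI : CharP K p := charP_of_injective_algebraMap (algebraMap k K).injective p
  obtain ⟨ι, hι⟩ : ∃ ι : MvPolynomial (Fin n) k →+* K, ι = algebraMap (MvPolynomial (Fin n) k) K :=
    ⟨_, rfl⟩
  have hιinj : Function.Injective ι := by
    rw [hι]; exact IsFractionRing.injective (MvPolynomial (Fin n) k) K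
  choose d hd using fun i : Fin n =>
    exists_ext (k := k) (P := MvPolynomial (Fin n) k) (K := K) (pderiv i)
  rw [← hι] at hd
  let x : Fin n → K := fun i => ι (X i)
  have hd1 : ∀ i, d i (x i) = 1 := by
    intro i
    rw [hd, pderiv_X_self, map_one]
  have hd0 : ∀ i j, i ≠ j → d i (x j) = 0 := by
    intro i j hij
    rw [hd, pderiv_X_of_ne (Ne.symm hij), map_zero]
  have hx : ∀ E : Derivation k K K, (∀ j, E (x j) = 0) → E = 0 := by
    intro E hE
    apply der_zero (P := MvPolynomial (Fin n) k)
    intro f
    have h1 : E.compAlgebraMap (MvPolynomial (Fin n) k) = 0 := by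
      apply derivation_ext
      intro i
      have := hE i
      rw [show x i = algebraMap (MvPolynomial (Fin n) k) K (X i) by rw [← hι]] at this
      exact this
    exact congrArg (fun D : Derivation k (MvPolynomial (Fin n) k) K => D f) h1
  let H : Fin n → Derivation k K K := fun a => ∑ j, ι (B.br (X a) (X j)) • d j
  have hH : ∀ a f, H a (ι f) = ι (B.br (X a) f) := by
    intro a f
    show (∑ j, ι (B.br (X a) (X j)) • d j) (ι f) = _
    rw [V1145.Pois.sum_smul_apply, B.br_eq (X a) f, map_sum]
    refine Finset.sum_congr rfl (fun j _ => ?_)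
    rw [hd, map_mul]
  have hself : ∀ i, H i (x i) = 0 := by
    intro i
    rw [hH, B.self, map_zero]
  have hanti : ∀ i j, H i (x j) = - H j (x i) := by
    intro i j
    rw [hH, hH, B.anti, map_neg]
  have hJ : ∀ a i j, H a (H i (x j)) + H i (H j (x a)) + H j (H a (x i)) = 0 := by
    intro a i j
    rw [hH, hH, hH, hH, hH, hH, ← map_add, ← map_add, B.jacobi, map_zero]
  have hHH : ∀ a b, ⁅H a, H b⁆ ∈ Submodule.span K (Set.range H) := by
    intro a b
    have h1 : ⁅H a, H b⁆ = ∑ l, ι (pderiv l (B.br (X a) (X b))) • H l := by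
      rw [← sub_eq_zero]
      apply hx
      intro j
      have h2 : ∑ l, pderiv l (B.br (X a) (X b)) * B.br (X l) (X j) =
          B.br (B.br (X a) (X b)) (X j) := by
        rw [B.anti _ (X j), B.br_eq (X j), ← Finset.sum_neg_distrib]
        refine Finset.sum_congr rfl (fun l _ => ?_)
        rw [B.anti (X l) (X j)]; ring
      have h4 : ∑ l, ι (pderiv l (B.br (X a) (X b))) * H l (x j) =
          ι (B.br (B.br (X a) (X b)) (X j)) := by
        rw [← h2, map_sum]
        refine Finset.sum_congr rfl (fun l _ => ?_)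
        rw [hH, map_mul]
      rw [Derivation.sub_apply, Derivation.commutator_apply,
        V1145.Pois.sum_smul_apply Finset.univ (fun l => ι (pderiv l (B.br (X a) (X b)))) H (x j),
        h4, hH, hH, hH, hH, ← map_sub, ← map_sub, ← map_zero ι]
      congr 1
      have h3 := B.jacobi (X a) (X b) (X j)
      rw [B.anti (X j) (B.br (X a) (X b)), B.anti (X j) (X a), map_neg] at h3
      linear_combination h3
    rw [h1]
    exact Submodule.sum_mem _ (fun l _ => Submodule.smul_mem _ _
      (Submodule.subset_span (Set.mem_range_self l)))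
  obtain ⟨g, hg, hgH⟩ := V1145.Pois.abstract_main hp x d hd1 hd0 hx H hself hanti hJ hHH
  have hgH' : ∀ a, H a g = ι (B.modular (X a)) * g := by
    intro a
    rw [hgH, B.modular_apply, map_sum, ← Finset.sum_neg_distrib]
    congr 1
    refine Finset.sum_congr rfl (fun j _ => ?_)
    rw [hH, hd, B.anti (X j) (X a), map_neg, map_neg]
  obtain ⟨u, s, hs, hus⟩ := IsFractionRing.div_surjective (A := MvPolynomial (Fin n) k) g
  rw [← hι] at hus
  have hs0 : s ≠ 0 := nonZeroDivisors.ne_zero hs
  have hιs : ι s ≠ 0 := by
    intro h; exact hs0 (hιinj (by rw [h, map_zero]))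
  have hu0 : u ≠ 0 := by
    rintro rfl
    apply hg
    rw [← hus, map_zero, zero_div]
  have hf0 : s ^ (p - 1) * u ≠ 0 := mul_ne_zero (pow_ne_zero _ hs0) hu0
  have hιf : ι (s ^ (p - 1) * u) = ι s ^ p * g := by
    rw [← hus, map_mul, map_pow]
    obtain ⟨q, hq⟩ : ∃ q, p = q + 1 := ⟨p - 1, by have := hp.one_lt; omega⟩
    rw [hq, Nat.add_sub_cancel, pow_succ, mul_assoc, mul_div_cancel₀ _ hιs]
  have hXa : ∀ a, B.br (X a) (s ^ (p - 1) * u) = B.modular (X a) * (s ^ (p - 1) * u) := by
    intro a
    apply hιinj
    rw [← hH, hιf, Derivation.leibniz, Derivation.leibniz_pow, hgH', map_mul ι (B.modular (X a)),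
      hιf]
    simp only [smul_eq_mul, nsmul_eq_mul, CharP.cast_eq_zero, zero_mul, mul_zero, add_zero]
    ring
  have hall : (s ^ (p - 1) * u) • B.modular = - B.ham (s ^ (p - 1) * u) := by
    apply derivation_ext
    intro a
    rw [Derivation.smul_apply, Derivation.neg_apply, B.ham_apply, ← B.anti, hXa, smul_eq_mul]
    ring
  have hlog : B.IsLogOzone (s ^ (p - 1) * u) B.modular := by
    intro a
    have h1 := congrArg (fun D : Derivation k (MvPolynomial (Fin n) k) _ => D a) hall
    simp only [Derivation.smul_apply, Derivation.neg_apply, B.ham_apply, ← B.anti,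
      smul_eq_mul] at h1
    exact h1
  exact ⟨s ^ (p - 1) * u, ⟨hf0, fun a => ⟨B.modular a, (hlog a).symm⟩⟩, hlog⟩

/-- **Main theorem.** Let `k` be a field of characteristic `p > 0`, `n` a natural number and `B` a
Poisson algebra structure on `P = k[x_1, ..., x_n]`. Then there is one Poisson normal polynomial `Ω`
with `φ = δ_Ω`, and the modular derivation `φ` lies in the log-ozone group. -/
theorem result (k : Type u) [Field k] (p : ℕ) [Fact p.Prime] [CharP k p] (n : ℕ)
    (B : PoissonPoly k n) :
    (∃ Ω, B.IsNormal Ω ∧ B.IsLogOzone Ω B.modular) ∧ B.modular ∈ B.loz := by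
  have main := main_aux p B (FractionRing (MvPolynomial (Fin n) k))
  refine ⟨main, ?_⟩
  obtain ⟨Ω, h1, h2⟩ := main
  exact AddSubgroup.subset_closure ⟨Ω, h1, h2⟩

end Pool.Agent.Results.MP_c5669f_al.LogOzone
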